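import Pool.Agent.Y101.Th.PairDefs
import Pool.Agent.Y101.Th.BilDefs

/-!
# Sato–Tate groups and equidistribution for pure motives over the rational numbers: definitions
-/

set_option autoImplicit false

open CategoryTheory Limits MonoidalCategory AlgebraicGeometry

namespace Pool.Agent.Y116.ST

open Pool.Agent.Y116.UV Pool.Agent.Y101.Th

universe v u

attribute [local instance] Abelian.hasFiniteBiproducts

/-- `A` is a direct factor of `B`. -/
def Fac {𝒜 : Type u} [Category.{v} 𝒜] (A B : 𝒜) : Prop := Nonempty (Retract A B)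

/-- `L ⊗ ... ⊗ L` -/
def lpow {𝒜 : Type u} [Category.{v} 𝒜] [MonoidalCategory 𝒜] (L : 𝒜) : ℕ → 𝒜
  | 0 => 𝟙_ 𝒜
  | n + 1 => lpow L n ⊗ L

/-- An action of the group `S` on the tensor functor `V` by tensor automorphisms. -/
structure Action {𝒜 : Type u} [Category.{v} 𝒜] [MonoidalCategory 𝒜]
    (V : 𝒜 ⥤ ModuleCat.{0} ℂ) [V.Monoidal] (S : Type) [Group S] where
  act : S → (V ⟶ V)
  one : act 1 = 𝟙 V
  mul : ∀ g h : S, act (g * h) = act h ≫ act g
  unit : ∀ g : S, (act g).app (𝟙_ 𝒜) = 𝟙 _
  tensor : ∀ (g : S) (A B : 𝒜), Functor.LaxMonoidal.μ V A B ≫ (act g).app (A ⊗ B) =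
    ((act g).app A ⊗ₘ (act g).app B) ≫ Functor.LaxMonoidal.μ V A B

variable {𝒜 : Type u} [Category.{v} 𝒜] [Abelian 𝒜] [MonoidalCategory 𝒜]
  {V : 𝒜 ⥤ ModuleCat.{0} ℂ} [V.Monoidal] {S : Type} [Group S]

/-- The data, for the category `𝒜` of pure motives over `ℚ`: `E Y i = ⨁_w gr^W_w h^i_c(Y)`, the sum
of the weight graded parts of the motive of `H^i_c`, for schemes `Y` of finite type over `ℚ` (the
motive `h^i(Y)` for `Y` smooth and projective); the Lefschetz motive `L = ℚ(-1)`; the action `a` of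
the Sato–Tate group `S` of all motives on the realisation `V` (the `ℓ`-adic realisation with scalars
extended to `ℂ`; `S` is a maximal compact subgroup of the complex points of the kernel on `L` of the
`ℓ`-adic monodromy group of all motives; its image in `GL(V(A))` is the Sato–Tate group of `A`);
the element `ε` of `S` that acts on motives of weight `w` as `(-1)^w`; for a motive `A` and the `n`-th
prime number `p` a representative `frob A n` in `S` of the class of the normalised semisimplified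
Frobenius at `p` in the Sato–Tate group of `A` (any element for the finitely many bad primes). -/
structure Data (V : 𝒜 ⥤ ModuleCat.{0} ℂ) [V.Monoidal] (S : Type) [Group S] where
  E : Sch ℚ → ℤ → 𝒜
  L : 𝒜
  a : Action V S
  ε : S
  frob : 𝒜 → ℕ → S

/-- The action of `g` on `V(A)`. -/
def Data.on (T : Data V S) (g : S) (A : 𝒜) : V.obj A ⟶ V.obj A := (T.a.act g).app A

/-- the cohomology of `X` in the degrees `0, ..., n - 1` -/
noncomputable def Data.tot (T : Data V S) (X : Sch ℚ) (n : ℕ) : 𝒜 :=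
  ⨁ fun q : Fin n => T.E X (q : ℤ)

/-- The systems of fewer than `N` bilinear equations, with coefficients `0` and `1`, in fewer than
`N` variables `y` and fewer than `C` variables `z`, together with a degree smaller than `N`. -/
abbrev Idx (N C : ℕ) : Type :=
  (a : Fin N) × (b : Fin N) × (c : Fin C) × ((Fin a → Fin b → Fin c → Bool) × Fin N)

/-- the scheme of the solutions of the bilinear equations -/
noncomputable def Idx.sch {N C : ℕ} (x : Idx N C) : Sch ℚ :=
  bilS fun i j l => if x.2.2.2.1 i j l then (1 : ℚ) else 0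

/-- the motive `⨁ E(B_t, i)`, the sum over the elements of `Idx N C` -/
noncomputable def Data.M (T : Data V S) (N C : ℕ) : 𝒜 :=
  ⨁ fun x : Idx N C => T.E x.sch (x.2.2.2.2 : ℤ)

/-- The averages of the values of `f` over the terms of the sequence `x` tend to `l`. -/
def MeanLimit {S : Type} (x : ℕ → S) (f : S → ℂ) (l : ℂ) : Prop :=
  Filter.Tendsto (fun n : ℕ => (n⁻¹ : ℂ) * ∑ k ∈ Finset.range n, f (x k)) Filter.atTop (nhds l)

/-- The Sato–Tate conjecture for the motive `A`: the Frobenius classes are equidistributed in the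
space of conjugacy classes of the Sato–Tate group of `A`, that is, for every continuous class
function `f` on `S` that depends only on the action on `V(A)` the averages of the values of `f` at the
Frobenius classes tend to the integral of `f`. -/
def SatoTate [TopologicalSpace S] [MeasurableSpace S] (μ : MeasureTheory.Measure S)
    (T : Data V S) (A : 𝒜) : Prop :=
  ∀ f : S → ℂ, Continuous f → (∀ g h : S, f (h⁻¹ * g * h) = f g) →
    (∀ g h : S, T.on g A = T.on h A → f g = f h) →
    MeanLimit (T.frob A) f (∫ g, f g ∂μ)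

/-- The same in the quotient of the Sato–Tate group of `A` by the image of `ε` (if `A` is pure of odd
weight, this image is `-1`; if all weights of `A` are even, it is trivial). -/
def SatoTatePM [TopologicalSpace S] [MeasurableSpace S] (μ : MeasureTheory.Measure S)
    (T : Data V S) (A : 𝒜) : Prop :=
  ∀ f : S → ℂ, Continuous f → (∀ g h : S, f (h⁻¹ * g * h) = f g) →
    (∀ g h : S, (T.on g A = T.on h A ∨ T.on g A = T.on (T.ε * h) A) → f g = f h) →
    MeanLimit (T.frob A) f (∫ g, f g ∂μ)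

/-- the exact sequences `E U i → E X i → E Z i` and `E Z i → E U (i + 1) → E X (i + 1)` -/
def HasLocalization (T : Data V S) (Z X U : Sch ℚ) : Prop :=
  ∀ i : ℤ, ∃ (f : T.E U i ⟶ T.E X i) (g : T.E X i ⟶ T.E Z i) (δ : T.E Z i ⟶ T.E U (i + 1))
    (f' : T.E U (i + 1) ⟶ T.E X (i + 1)) (w : f ≫ g = 0) (w' : δ ≫ f' = 0),
    (ShortComplex.mk f g w).Exact ∧ (ShortComplex.mk δ f' w').Exact

/-- Known properties: the category of pure motives over `ℚ` is semisimple; `V(L)` is not zero and the
Sato–Tate group acts trivially on it; `ε` is central of order at most two and acts on `h^i(X)` as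
`(-1)^i`; the Frobenius classes of `A` and `B` are compatible if the Sato–Tate group of `B` is a
quotient of that of `A`; isomorphism invariance; localization sequences; `h^i_c(Y × 𝔸^n)`; `h^i_c(Y)`
is a direct factor of `h^(i+1)_c(Y × 𝔾_m)` (both for affine `Y`); the empty scheme; the point;
negative degrees; the weight graded parts of `h^i_c(Y)` are direct factors of the motives of smooth
projective schemes of at most the same dimension (resolution of singularities); disjoint unions;
Künneth formula; the projective line. -/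
structure IsData (T : Data V S) : Prop where
  semisimple : ∀ X : ShortComplex 𝒜, X.ShortExact → Nonempty X.Splitting
  lefschetz : Nontrivial (V.obj T.L)
  trivial_L : ∀ g : S, T.on g T.L = 𝟙 _
  central : ∀ g : S, T.ε * g = g * T.ε
  square : T.ε * T.ε = 1
  parity : ∀ X : Sch ℚ, SmProj X → ∀ q : ℕ, T.on T.ε (T.E X (q : ℤ)) = ((-1 : ℂ) ^ q) • 𝟙 _
  frob_compat : ∀ A B : 𝒜, (∀ g : S, T.on g A = 𝟙 _ → T.on g B = 𝟙 _) →
    ∃ N : ℕ, ∀ n, N ≤ n → ∃ h : S, T.on (T.frob B n) B = T.on (h⁻¹ * T.frob A n * h) B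
  iso : ∀ {X Y : Sch ℚ}, FT True X → Nonempty (X ≅ Y) → ∀ i, Nonempty (T.E X i ≅ T.E Y i)
  localization : ∀ {Z X U : Sch ℚ} (a : Z ⟶ X) (b : U ⟶ X), FT True X → IsTriple a b →
    HasLocalization T Z X U
  space : ∀ (A : Type) [CommRing A] [Algebra ℚ A] [Algebra.FiniteType ℚ A] (n : ℕ) (i : ℤ),
    Nonempty (T.E (aff ℚ (MvPolynomial (Fin n) A)) (i + 2 * n) ≅ T.E (aff ℚ A) i ⊗ lpow T.L n)
  torus : ∀ (A : Type) [CommRing A] [Algebra ℚ A] [Algebra.FiniteType ℚ A] (i : ℤ),
    Fac (T.E (aff ℚ A) i) (T.E (aff ℚ (LaurentPolynomial A)) (i + 1))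
  empty : ∀ (A : Type) [CommRing A] [Algebra ℚ A], Subsingleton A →
    ∀ i, IsZero (T.E (aff ℚ A) i)
  point : Nonempty (T.E (aff ℚ ℚ) 0 ≅ 𝟙_ 𝒜) ∧ ∀ i, i ≠ 0 → IsZero (T.E (aff ℚ ℚ) i)
  negative : ∀ Y : Sch ℚ, FT True Y → ∀ i, i < 0 → IsZero (T.E Y i)
  resolution : ∀ Y : Sch ℚ, FT True Y → ∀ d : ℕ, topologicalKrullDim Y.left ≤ d → ∀ i,
    ∃ X : Sch ℚ, SmProj X ∧ topologicalKrullDim X.left ≤ d ∧ ∃ n, Fac (T.E Y i) (T.tot X n)
  disjoint : ∀ X X' : Sch ℚ, SmProj X → SmProj X' → ∃ X'' : Sch ℚ, SmProj X'' ∧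
    (∀ d : ℕ, topologicalKrullDim X.left ≤ d → topologicalKrullDim X'.left ≤ d →
      topologicalKrullDim X''.left ≤ d) ∧
    ∀ i, Fac (T.E X i) (T.E X'' i) ∧ Fac (T.E X' i) (T.E X'' i)
  kunneth : ∀ X Y : Sch ℚ, SmProj X → SmProj Y → ∃ Z : Sch ℚ, SmProj Z ∧
    ∀ i j, Fac (T.E X i ⊗ T.E Y j) (T.E Z (i + j))
  line : ∃ X : Sch ℚ, SmProj X ∧ Fac (𝟙_ 𝒜) (T.E X 0) ∧ Fac T.L (T.E X 2)

end Pool.Agent.Y116.ST
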