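import Pool.Agent.Y116.ST.Defs
import Pool.Agent.Y116.MC.Gen
import Pool.Agent.Y101.Th.RMain
import Pool.Agent.Y101.Th.Swap

/-!
# Quotients of Sato–Tate groups
-/

set_option autoImplicit false
set_option linter.unusedSectionVars false

open CategoryTheory Limits MonoidalCategory AlgebraicGeometry

namespace Pool.Agent.Y116.ST

open Pool.Agent.Y116.UV Pool.Agent.Y101.Th Pool.Agent.Y101.Th.RX

universe v u w

attribute [local instance] Abelian.hasFiniteBiproducts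

variable {𝒜 : Type u} [Category.{v} 𝒜] [Abelian 𝒜] [MonoidalCategory 𝒜]
  {V : 𝒜 ⥤ ModuleCat.{0} ℂ} [V.Monoidal] {S : Type} [Group S] {T : Data V S}

lemma Fac.refl (A : 𝒜) : Fac A A := ⟨⟨𝟙 A, 𝟙 A, by simp⟩⟩

lemma Fac.trans {A B C : 𝒜} : Fac A B → Fac B C → Fac A C := by
  rintro ⟨r⟩ ⟨s⟩
  exact ⟨⟨r.i ≫ s.i, s.r ≫ r.r, by simp⟩⟩

lemma Fac.of_iso {A B : 𝒜} (e : A ≅ B) : Fac A B := ⟨⟨e.hom, e.inv, by simp⟩⟩

lemma Fac.tensor {A B A' B' : 𝒜} : Fac A B → Fac A' B' → Fac (A ⊗ A') (B ⊗ B') := by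
  rintro ⟨r⟩ ⟨s⟩
  exact ⟨⟨r.i ⊗ₘ s.i, r.r ⊗ₘ s.r, by simp⟩⟩

lemma Fac.unit_right {A B C : 𝒜} (h : Fac A B) (hC : Fac (𝟙_ 𝒜) C) : Fac A (B ⊗ C) :=
  (Fac.of_iso (ρ_ A).symm).trans (h.tensor hC)

lemma Fac.unit_left {A B C : 𝒜} (h : Fac A B) (hC : Fac (𝟙_ 𝒜) C) : Fac A (C ⊗ B) :=
  (Fac.of_iso (λ_ A).symm).trans (hC.tensor h)

lemma fac_big {J : Type} [Finite J] (f : J → 𝒜) (j : J) : Fac (f j) (⨁ f) :=
  ⟨⟨biproduct.ι f j, biproduct.π f j, biproduct.ι_π_self f j⟩⟩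

/-! ### The action -/

lemma on_mul (g h : S) (A : 𝒜) : T.on (g * h) A = T.on h A ≫ T.on g A := by
  change (T.a.act (g * h)).app A = _
  rw [T.a.mul]
  rfl

lemma on_one (A : 𝒜) : T.on 1 A = 𝟙 _ := by
  change (T.a.act 1).app A = _
  rw [T.a.one]
  rfl

lemma on_inv (g : S) (A : 𝒜) : T.on g A ≫ T.on g⁻¹ A = 𝟙 _ := by
  rw [← on_mul, inv_mul_cancel, on_one]

lemma on_eq_of {g h : S} {A : 𝒜} (H : T.on (h⁻¹ * g) A = 𝟙 _) : T.on g A = T.on h A := by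
  have h1 : g = h * (h⁻¹ * g) := by group
  conv_lhs => rw [h1]
  rw [on_mul, H, Category.id_comp]

lemma on_of_eq {g h : S} {A : 𝒜} (H : T.on g A = T.on h A) : T.on (h⁻¹ * g) A = 𝟙 _ := by
  rw [on_mul, H, on_inv]

lemma on_fac {B C : 𝒜} (g : S) (r : Retract B C) :
    T.on g B = V.map r.i ≫ T.on g C ≫ V.map r.r := by
  change (T.a.act g).app B = V.map r.i ≫ (T.a.act g).app C ≫ V.map r.r
  rw [← (T.a.act g).naturality r.r, ← Category.assoc, ← V.map_comp, r.retract, V.map_id,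
    Category.id_comp]

/-- the Sato–Tate group of `B` is a quotient of that of `A` -/
def Dom (T : Data V S) (A B : 𝒜) : Prop := ∀ g : S, T.on g A = 𝟙 _ → T.on g B = 𝟙 _

lemma Dom.refl (A : 𝒜) : Dom T A A := fun _ h => h

lemma Dom.trans {A B C : 𝒜} (h1 : Dom T A B) (h2 : Dom T B C) : Dom T A C :=
  fun g h => h2 g (h1 g h)

lemma Dom.fac {A B C : 𝒜} (h : Fac B C) (hC : Dom T A C) : Dom T A B := by
  obtain ⟨r⟩ := h
  intro g hg
  rw [on_fac g r, hC g hg, Category.id_comp, ← V.map_comp, r.retract, V.map_id]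

lemma Dom.unit (A : 𝒜) : Dom T A (𝟙_ 𝒜) := fun g _ => T.a.unit g

lemma Dom.tensor {A B C : 𝒜} (hB : Dom T A B) (hC : Dom T A C) : Dom T A (B ⊗ C) := by
  intro g hg
  have h1 := T.a.tensor g B C
  have h2 : (T.a.act g).app B = 𝟙 _ := hB g hg
  have h3 : (T.a.act g).app C = 𝟙 _ := hC g hg
  rw [h2, h3, id_tensorHom_id, Category.id_comp] at h1
  rw [← cancel_epi (Functor.LaxMonoidal.μ V B C), Category.comp_id]
  exact h1

lemma Dom.sum [V.Additive] {A B C : 𝒜} (hB : Dom T A B) (hC : Dom T A C) : Dom T A (B ⊞ C) := by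
  intro g hg
  have e : 𝟙 (V.obj (B ⊞ C)) = V.map biprod.fst ≫ V.map biprod.inl +
      V.map biprod.snd ≫ V.map biprod.inr := by
    rw [← V.map_comp, ← V.map_comp, ← V.map_add, biprod.total, V.map_id]
  have h1 : (V.map (biprod.inl : B ⟶ B ⊞ C)) ≫ T.on g (B ⊞ C) = V.map biprod.inl := by
    change V.map biprod.inl ≫ (T.a.act g).app (B ⊞ C) = _
    rw [(T.a.act g).naturality]
    change T.on g B ≫ _ = _
    rw [hB g hg, Category.id_comp]
  have h2 : (V.map (biprod.inr : C ⟶ B ⊞ C)) ≫ T.on g (B ⊞ C) = V.map biprod.inr := by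
    change V.map biprod.inr ≫ (T.a.act g).app (B ⊞ C) = _
    rw [(T.a.act g).naturality]
    change T.on g C ≫ _ = _
    rw [hC g hg, Category.id_comp]
  rw [← Category.id_comp (T.on g (B ⊞ C)), e, Preadditive.add_comp, Category.assoc,
    Category.assoc, h1, h2]

lemma on_big [V.Additive] (g : S) {J : Type} [Finite J] (f : J → 𝒜)
    (h : ∀ j, T.on g (f j) = 𝟙 _) : T.on g (⨁ f) = 𝟙 _ := by
  classical
  have := Fintype.ofFinite J
  have e : 𝟙 (V.obj (⨁ f)) = ∑ j, V.map (biproduct.π f j) ≫ V.map (biproduct.ι f j) := by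
    rw [← V.map_id, ← biproduct.total, V.map_sum]
    simp only [V.map_comp]
  rw [← Category.id_comp (T.on g (⨁ f)), e, Preadditive.sum_comp]
  refine Finset.sum_congr rfl fun j _ => ?_
  rw [Category.assoc]
  congr 1
  change V.map (biproduct.ι f j) ≫ (T.a.act g).app (⨁ f) = _
  rw [(T.a.act g).naturality]
  change T.on g (f j) ≫ _ = _
  rw [h j, Category.id_comp]

lemma Dom.big [V.Additive] {A : 𝒜} {J : Type} [Finite J] (f : J → 𝒜) (h : ∀ j, Dom T A (f j)) :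
    Dom T A (⨁ f) := fun g hg => on_big g f fun j => h j g hg

lemma Dom.zero {A B : 𝒜} (h : IsZero B) : Dom T A B :=
  Dom.fac (Pool.Agent.Y116.MC.Fac.of_isZero h) (Dom.unit A)

lemma Dom.lef (hT : IsData T) (A : 𝒜) : Dom T A T.L := fun g _ => hT.trivial_L g

lemma Dom.lpow (hT : IsData T) (A : 𝒜) (n : ℕ) : Dom T A (lpow T.L n) := by
  induction n with
  | zero => exact Dom.unit A
  | succ n ih => exact Dom.tensor ih (Dom.lef hT A)

open TensorProduct in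
lemma on_point {B C : 𝒜} (g : S) (H : T.on g (B ⊗ C) = 𝟙 _) (x : V.obj B) (y : V.obj C) :
    (T.on g B x) ⊗ₜ[ℂ] (T.on g C y) = x ⊗ₜ[ℂ] y := by
  have h1 := T.a.tensor g B C
  have h2 : (T.a.act g).app (B ⊗ C) = 𝟙 _ := H
  rw [h2, Category.comp_id] at h1
  have h3 : (T.a.act g).app B ⊗ₘ (T.a.act g).app C = 𝟙 _ := by
    rw [← cancel_mono (Functor.LaxMonoidal.μ V B C), Category.id_comp]
    exact h1.symm
  have h4 := congrArg (fun f => f (x ⊗ₜ[ℂ] y)) h3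
  exact h4

section dir

variable {ι : Type w} {B : ι → 𝒜}

/-- a directed family -/
def IsDir (T : Data V S) (B : ι → 𝒜) : Prop := ∀ i j, ∃ k, Dom T (B k) (B i) ∧ Dom T (B k) (B j)

lemma dir_two (hB : IsDir T B) {X Y : 𝒜} (h1 : ∃ i, Dom T (B i) X) (h2 : ∃ i, Dom T (B i) Y) :
    ∃ i, Dom T (B i) X ∧ Dom T (B i) Y := by
  obtain ⟨i, hi⟩ := h1
  obtain ⟨j, hj⟩ := h2
  obtain ⟨k, hki, hkj⟩ := hB i j
  exact ⟨k, hki.trans hi, hkj.trans hj⟩

lemma dir_big [V.Additive] (hB : IsDir T B) [Nonempty ι] {J : Type} [Finite J] (f : J → 𝒜)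
    (h : ∀ j, ∃ i, Dom T (B i) (f j)) : ∃ i, Dom T (B i) (⨁ f) := by
  classical
  have := Fintype.ofFinite J
  suffices H : ∀ s : Finset J, ∃ i, ∀ j ∈ s, Dom T (B i) (f j) by
    obtain ⟨i, hi⟩ := H Finset.univ
    exact ⟨i, Dom.big f fun j => hi j (Finset.mem_univ j)⟩
  intro s
  induction s using Finset.induction_on with
  | empty => exact ⟨Classical.arbitrary ι, fun j hj => absurd hj (Finset.notMem_empty j)⟩
  | insert a s _ ih =>
    obtain ⟨i, hi⟩ := ih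
    obtain ⟨j, hj⟩ := h a
    obtain ⟨k, hki, hkj⟩ := hB i j
    refine ⟨k, fun x hx => ?_⟩
    rcases Finset.mem_insert.mp hx with rfl | hx
    · exact hkj.trans hj
    · exact hki.trans (hi x hx)

/-- all `h^i_c(Y)` are dominated by members of the family `B` -/
def PE (T : Data V S) (B : ι → 𝒜) (Y : Sch ℚ) : Prop := ∀ i : ℤ, ∃ j, Dom T (B j) (T.E Y i)

theorem ru_of_dir [V.Additive] (hT : IsData T) (hB : IsDir T B) [hn : Nonempty ι] :
    RU True (PE T B) where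
  iso := by
    intro X Y hX e h i
    obtain ⟨j, hj⟩ := h i
    obtain ⟨e'⟩ := hT.iso hX e i
    exact ⟨j, Dom.fac (Fac.of_iso e'.symm) hj⟩
  total := by
    intro Z X U a b hX ht hZ hU i
    obtain ⟨f, g, δ, f', w, w', h1, h2⟩ := hT.localization a b hX ht i
    obtain ⟨k, hk1, hk2⟩ := dir_two hB (hU i) (hZ i)
    exact ⟨k, Dom.fac (Pool.Agent.Y116.MC.fac_of_exact hT.semisimple f g w h1)
      (Dom.sum hk1 hk2)⟩
  opened := by
    intro Z X U a b hX ht hZ hX' i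
    obtain ⟨i, rfl⟩ : ∃ i', i = i' + 1 := ⟨i - 1, by ring⟩
    obtain ⟨f, g, δ, f', w, w', h1, h2⟩ := hT.localization a b hX ht i
    obtain ⟨k, hk1, hk2⟩ := dir_two hB (hZ i) (hX' (i + 1))
    exact ⟨k, Dom.fac (Pool.Agent.Y116.MC.fac_of_exact hT.semisimple δ f' w' h2)
      (Dom.sum hk1 hk2)⟩
  space := by
    intro n i
    obtain ⟨i, rfl⟩ : ∃ i', i = i' + 2 * (n : ℤ) := ⟨i - 2 * n, by ring⟩
    obtain ⟨e⟩ := hT.space ℚ n i
    obtain ⟨j⟩ := hn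
    refine ⟨j, Dom.fac (Fac.of_iso e) (Dom.tensor ?_ (Dom.lpow hT _ n))⟩
    by_cases hi : i = 0
    · subst hi
      obtain ⟨e⟩ := hT.point.1
      exact Dom.fac (Fac.of_iso e) (Dom.unit _)
    · exact Dom.zero (hT.point.2 i hi)
  poly := by
    intro A _ _ _ n h i
    obtain ⟨i, rfl⟩ : ∃ i', i = i' + 2 * (n : ℤ) := ⟨i - 2 * n, by ring⟩
    obtain ⟨e⟩ := hT.space A n i
    obtain ⟨k, hk⟩ := h i
    exact ⟨k, Dom.fac (Fac.of_iso e) (Dom.tensor hk (Dom.lpow hT _ n))⟩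
  torus := by
    intro A _ _ _ h i
    obtain ⟨k, hk⟩ := h (i + 1)
    exact ⟨k, Dom.fac (hT.torus A i) hk⟩
  empty := by
    intro A _ _ hA i
    obtain ⟨j⟩ := hn
    exact ⟨j, Dom.zero (hT.empty A hA i)⟩

end dir

end Pool.Agent.Y116.ST
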