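import Pool.Agent.Y116.ST.Dom

/-!
# Equidistribution and systems of bilinear equations
-/

set_option autoImplicit false
set_option linter.unusedSectionVars false

open CategoryTheory Limits MonoidalCategory AlgebraicGeometry

namespace Pool.Agent.Y116.ST

open Pool.Agent.Y116.UV Pool.Agent.Y101.Th Pool.Agent.Y101.Th.RX

universe v u w

attribute [local instance] Abelian.hasFiniteBiproducts

variable {𝒜 : Type u} [Category.{v} 𝒜] [Abelian 𝒜] [MonoidalCategory 𝒜]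
  {V : 𝒜 ⥤ ModuleCat.{0} ℂ} [V.Monoidal] [V.Additive] {S : Type} [Group S] {T : Data V S}

/-! ### The explicit motives -/

lemma comp_dom {N C : ℕ} (x : Idx N C) : Dom T (T.M N C) (T.E x.sch (x.2.2.2.2 : ℤ)) :=
  Dom.fac (fac_big (fun x : Idx N C => T.E x.sch (x.2.2.2.2 : ℤ)) x) (Dom.refl _)

lemma dom_M_bil {N C a b c : ℕ} (t : Fin a → Fin b → Fin c → ℚ)
    (ht : ∀ i j l, t i j l = 0 ∨ t i j l = 1) (n : ℕ) (ha : a < N) (hb : b < N) (hc : c < C)
    (hn : n < N) : Dom T (T.M N C) (T.E (bilS t) (n : ℤ)) := by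
  classical
  let x : Idx N C := ⟨⟨a, ha⟩, ⟨b, hb⟩, ⟨c, hc⟩, fun i j l => decide (t i j l = 1), ⟨n, hn⟩⟩
  have h1 : x.sch = bilS t := by
    have h2 : (fun i j l => if decide (t i j l = 1) = true then (1 : ℚ) else 0) = t := by
      funext i j l
      rcases ht i j l with h | h
      · rw [h]; simp
      · rw [h]; simp
    change bilS (fun i j l => if decide (t i j l = 1) = true then (1 : ℚ) else 0) = bilS t
    rw [h2]
  have h2 := comp_dom (T := T) x
  rw [h1] at h2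
  exact h2

lemma M_mono {N N' C C' : ℕ} (hN : N ≤ N') (hC : C ≤ C') : Dom T (T.M N' C') (T.M N C) := by
  refine Dom.big _ fun x => ?_
  obtain ⟨a, b, c, t, i⟩ := x
  exact comp_dom (T := T) (N := N') (C := C')
    ⟨⟨a, a.2.trans_le hN⟩, ⟨b, b.2.trans_le hN⟩, ⟨c, c.2.trans_le hC⟩, t, ⟨i, i.2.trans_le hN⟩⟩

lemma dir_M (C : ℕ) : IsDir T fun N => T.M N C := fun i j =>
  ⟨max i j, M_mono (le_max_left _ _) le_rfl, M_mono (le_max_right _ _) le_rfl⟩

lemma dir_MM : IsDir T fun N => T.M N N := fun i j =>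
  ⟨max i j, M_mono (le_max_left _ _) (le_max_left _ _),
    M_mono (le_max_right _ _) (le_max_right _ _)⟩

lemma ft_bilS {a b c : ℕ} (t : Fin a → Fin b → Fin c → ℚ) : FT True (bilS t) := by
  rw [bilS]
  exact ft_aff True

theorem dom_of_dim (hT : IsData T) (d : ℕ) (Y : Sch ℚ) (hY : FT True Y)
    (hd : topologicalKrullDim Y.left ≤ d) : PE T (fun N => T.M N (d + 3)) Y := by
  refine (r_dim_frac isFrac_rat (ru_of_dir hT (dir_M (d + 3))) d).2 ?_ Y hY hd
  intro a b t ht i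
  rcases lt_or_ge i 0 with hi | hi
  · exact ⟨0, Dom.zero (hT.negative _ (ft_bilS t) i hi)⟩
  · obtain ⟨n, rfl⟩ := Int.eq_ofNat_of_zero_le hi
    exact ⟨a + b + n + 1, dom_M_bil t ht n (by omega) (by omega) (by omega) (by omega)⟩

lemma dom_all (hT : IsData T) (Y : Sch ℚ) (hY : FT True Y) : PE T (fun N => T.M N N) Y := by
  refine (r_all_frac isFrac_rat (ru_of_dir hT dir_MM)).2 ?_ Y hY
  intro a b c t ht i
  rcases lt_or_ge i 0 with hi | hi
  · exact ⟨0, Dom.zero (hT.negative _ (ft_bilS t) i hi)⟩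
  · obtain ⟨n, rfl⟩ := Int.eq_ofNat_of_zero_le hi
    exact ⟨a + b + c + n + 1, dom_M_bil t ht n (by omega) (by omega) (by omega) (by omega)⟩

lemma tot_dom_M (hT : IsData T) (d : ℕ) (X : Sch ℚ) (hX : SmProj X)
    (hd : topologicalKrullDim X.left ≤ d) (n : ℕ) : ∃ N, Dom T (T.M N (d + 3)) (T.tot X n) :=
  dir_big (dir_M (d + 3)) _ fun q => dom_of_dim hT d X hX.ft hd q

lemma tot_dom_MM (hT : IsData T) (X : Sch ℚ) (hX : SmProj X) (n : ℕ) :
    ∃ N, Dom T (T.M N N) (T.tot X n) := dir_big dir_MM _ fun q => dom_all hT X hX.ft q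

/-! ### Smooth projective schemes -/

/-- smooth projective schemes of dimension at most `d`, and a bound for the degrees -/
abbrev SP (d : ℕ) : Type 1 :=
  {X : Sch ℚ // SmProj X ∧ topologicalKrullDim X.left ≤ d} × ℕ

/-- the family of the cohomology of smooth projective schemes -/
noncomputable def fam (T : Data V S) (d : ℕ) (x : SP d) : 𝒜 := T.tot x.1.1 x.2

lemma dom_tot_H (hT : IsData T) {X : Sch ℚ} (hX : SmProj X) (i : ℤ) (n : ℕ) (hi : i < n) :
    Dom T (T.tot X n) (T.E X i) := by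
  rcases lt_or_ge i 0 with h | h
  · exact Dom.zero (hT.negative X hX.ft i h)
  · obtain ⟨m, rfl⟩ := Int.eq_ofNat_of_zero_le h
    exact Dom.fac (fac_big (fun q : Fin n => T.E X (q : ℤ)) ⟨m, by omega⟩) (Dom.refl _)

lemma dom_tot_tot (hT : IsData T) {X X' : Sch ℚ} (hX' : SmProj X')
    (h : ∀ i, Fac (T.E X i) (T.E X' i)) {n n' : ℕ} (hn : n ≤ n') :
    Dom T (T.tot X' n') (T.tot X n) :=
  Dom.big _ fun q => Dom.fac (h q) (dom_tot_H hT hX' q n' (by omega))

lemma dir_fam (hT : IsData T) (d : ℕ) : IsDir T (fam T d) := by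
  rintro ⟨⟨X, hX, hXd⟩, n⟩ ⟨⟨X', hX', hXd'⟩, n'⟩
  obtain ⟨X'', hX'', hd'', h⟩ := hT.disjoint X X' hX hX'
  exact ⟨⟨⟨X'', hX'', hd'' d hXd hXd'⟩, max n n'⟩,
    dom_tot_tot hT hX'' (fun i => (h i).1) (le_max_left _ _),
    dom_tot_tot hT hX'' (fun i => (h i).2) (le_max_right _ _)⟩

lemma nonempty_SP (hT : IsData T) (d : ℕ) : Nonempty (SP d) := by
  obtain ⟨X, hX, hd, _⟩ := hT.resolution (aff ℚ ℚ) (ft_aff True) 0
    (by rw [Pool.Agent.Z125.UN.topDim_aff, ringKrullDim_eq_zero_of_field]; rfl) 0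
  exact ⟨⟨⟨X, hX, hd.trans (by exact_mod_cast Nat.zero_le d)⟩, 0⟩⟩

lemma ru_fam (hT : IsData T) (d : ℕ) : RU True (PE T (fam T d)) := by
  have := nonempty_SP hT d
  exact ru_of_dir hT (dir_fam hT d)

lemma fam_dim (hT : IsData T) (d : ℕ) (Y : Sch ℚ) (hY : FT True Y)
    (hd : topologicalKrullDim Y.left ≤ d) : PE T (fam T d) Y := by
  intro i
  obtain ⟨X, hX, hXd, n, h⟩ := hT.resolution Y hY d hd i
  exact ⟨⟨⟨X, hX, hXd⟩, n⟩, Dom.fac h (Dom.refl _)⟩

theorem bil_fam (hT : IsData T) (d : ℕ) {a b c : ℕ} (t : Fin a → Fin b → Fin c → ℚ)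
    (hm : b ≤ d + 2 ∨ c ≤ d + 2) : PE T (fam T d) (bilS t) :=
  bil_either (ru_fam hT d).dn ((r_dim (ru_fam hT d) d).1 (fam_dim hT d)) t hm

theorem M_fam (hT : IsData T) (d N : ℕ) : ∃ x, Dom T (fam T d x) (T.M N (d + 3)) := by
  have := nonempty_SP hT d
  refine dir_big (dir_fam hT d) _ fun x => ?_
  obtain ⟨a, b, c, t, i⟩ := x
  exact bil_fam hT d _ (Or.inr (Nat.lt_succ_iff.mp c.2)) _

/-! ### Even degrees -/

section linear

open TensorProduct

variable {W U : Type} [AddCommGroup W] [Module ℂ W] [AddCommGroup U] [Module ℂ U]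

lemma lin_cancel [Nontrivial U] (f g : W →ₗ[ℂ] W) (h : ∀ (x : W) (c : U),
    f x ⊗ₜ[ℂ] c = g x ⊗ₜ[ℂ] c) : f = g := by
  obtain ⟨c, hc⟩ := exists_ne (0 : U)
  ext x
  obtain ⟨φ, hφ⟩ : ∃ φ : U →ₗ[ℂ] ℂ, φ c = 1 := Module.Projective.exists_dual_eq_one ℂ hc
  have h1 := congrArg ((TensorProduct.rid ℂ W).toLinearMap ∘ₗ (φ.lTensor W)) (h x c)
  simpa [hφ] using h1

/-- if `f ⊗ h = 1` and `h` is a scalar on a nonzero space -/
lemma lin_sq (f : W →ₗ[ℂ] W) (h : ∀ x y : W, f x ⊗ₜ[ℂ] f y = x ⊗ₜ[ℂ] y) :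
    f = LinearMap.id ∨ f = -LinearMap.id := by
  by_cases hW : Subsingleton W
  · left
    ext x
    exact Subsingleton.elim _ _
  rw [not_subsingleton_iff_nontrivial] at hW
  obtain ⟨c, hc⟩ := exists_ne (0 : W)
  obtain ⟨φ, hφ⟩ : ∃ φ : W →ₗ[ℂ] ℂ, φ c = 1 := Module.Projective.exists_dual_eq_one ℂ hc
  have h1 : ∀ x, φ (f c) • f x = x := by
    intro x
    have h2 := congrArg ((TensorProduct.lid ℂ W).toLinearMap ∘ₗ (φ.rTensor W)) (h c x)
    simpa [hφ] using h2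
  have h3 : φ (f c) * φ (f c) = 1 := by
    have h4 := congrArg φ (h1 c)
    simpa [hφ] using h4
  rcases mul_self_eq_one_iff.mp h3 with h4 | h4
  · left
    ext x
    have h5 := h1 x
    rw [h4, one_smul] at h5
    exact h5
  · right
    ext x
    have h5 := h1 x
    rw [h4, neg_one_smul] at h5
    rw [LinearMap.neg_apply, LinearMap.id_apply, ← neg_eq_iff_eq_neg]
    exact h5

end linear

lemma on_cancel {B C : 𝒜} (g : S) (hC : Nontrivial (V.obj C)) (h : T.on g (B ⊗ C) = 𝟙 _)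
    (h' : T.on g C = 𝟙 _) : T.on g B = 𝟙 _ := by
  apply ModuleCat.hom_ext
  refine lin_cancel (U := V.obj C) _ _ fun x c => ?_
  have h1 := on_point g h x c
  rw [h'] at h1
  exact h1

lemma on_sq {B : 𝒜} (g : S) (h : T.on g (B ⊗ B) = 𝟙 _) :
    T.on g B = 𝟙 _ ∨ T.on g B = (-1 : ℂ) • 𝟙 _ := by
  rcases lin_sq (T.on g B).hom fun x y => on_point g h x y with h1 | h1
  · left
    apply ModuleCat.hom_ext
    exact h1
  · right
    apply ModuleCat.hom_ext
    rw [h1]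
    ext x
    simp

lemma on_cancel_neg {B C : 𝒜} (g : S) (hC : Nontrivial (V.obj C)) (h : T.on g (B ⊗ C) = 𝟙 _)
    (h' : T.on g C = (-1 : ℂ) • 𝟙 _) : T.on g B = (-1 : ℂ) • 𝟙 _ := by
  have h2 : (-(T.on g B).hom) = LinearMap.id := by
    refine lin_cancel (U := V.obj C) _ _ fun x c => ?_
    have h1 := on_point g h x c
    rw [h'] at h1
    have h3 : (((-1 : ℂ) • 𝟙 (V.obj C)) : V.obj C ⟶ V.obj C) c = -c := by
      change (-1 : ℂ) • c = -c
      rw [neg_one_smul]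
    rw [h3, TensorProduct.tmul_neg, ← TensorProduct.neg_tmul] at h1
    exact h1
  apply ModuleCat.hom_ext
  ext x
  have h3 : -((T.on g B).hom x) = x := LinearMap.congr_fun h2 x
  change (T.on g B).hom x = (-1 : ℂ) • x
  rw [neg_one_smul]
  exact neg_eq_iff_eq_neg.mp h3

lemma nontrivial_iso {A B : ModuleCat.{0} ℂ} (e : A ≅ B) (h : Nontrivial A) : Nontrivial B :=
  e.toLinearEquiv.toEquiv.nontrivial_congr.mp h

open TensorProduct in
lemma nontrivial_tensor {A B : 𝒜} (hA : Nontrivial (V.obj A))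
    (hB : Nontrivial (V.obj B)) : Nontrivial (V.obj (A ⊗ B)) := by
  refine nontrivial_iso (Functor.Monoidal.μIso V A B) ?_
  change Nontrivial (V.obj A ⊗[ℂ] V.obj B)
  infer_instance

lemma nontrivial_unit : Nontrivial (V.obj (𝟙_ 𝒜)) := by
  refine nontrivial_iso (Functor.Monoidal.εIso V) ?_
  change Nontrivial ℂ
  infer_instance

lemma nontrivial_lpow {L : 𝒜} (hL : Nontrivial (V.obj L)) (n : ℕ) :
    Nontrivial (V.obj (lpow L n)) := by
  induction n with
  | zero => exact nontrivial_unit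
  | succ n ih => exact nontrivial_tensor ih hL

lemma proj_pow (hT : IsData T) (m : ℕ) : ∃ P : Sch ℚ, SmProj P ∧ ∀ j : ℕ, j ≤ m →
    Fac (lpow T.L j) (T.E P (2 * (j : ℤ))) := by
  obtain ⟨P, hP, hP0, hPL⟩ := hT.line
  induction m with
  | zero =>
    refine ⟨P, hP, fun j hj => ?_⟩
    obtain rfl : j = 0 := by omega
    exact hP0
  | succ m ih =>
    obtain ⟨Q, hQ', hQ⟩ := ih
    obtain ⟨Z, hZ', hZ⟩ := hT.kunneth Q P hQ' hP
    refine ⟨Z, hZ', fun j hj => ?_⟩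
    rcases Nat.lt_or_ge j (m + 1) with h | h
    · have h1 := hZ (2 * (j : ℤ)) 0
      rw [add_zero] at h1
      exact (Fac.unit_right (hQ j (by omega)) hP0).trans h1
    · obtain rfl : j = m + 1 := by omega
      have h1 := hZ (2 * (m : ℤ)) 2
      have h2 : 2 * (m : ℤ) + 2 = 2 * ((m + 1 : ℕ) : ℤ) := by push_cast; ring
      rw [h2] at h1
      exact ((hQ m (by omega)).tensor hPL).trans h1

/-- up to `ε` the action on the cohomology of `X` is determined by the action on one cohomology group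
of even degree of one smooth projective scheme -/
theorem even_degree (hT : IsData T) (X : Sch ℚ) (hX : SmProj X) (n : ℕ) :
    ∃ Z : Sch ℚ, SmProj Z ∧ ∀ g : S, T.on g (T.E Z (2 * (n : ℤ))) = 𝟙 _ →
      (T.on g (T.tot X n) = 𝟙 _ ∨ T.on (T.ε * g) (T.tot X n) = 𝟙 _) := by
  obtain ⟨P, hP, hP0, _⟩ := hT.line
  obtain ⟨X', hX', _, hF⟩ := hT.disjoint X P hX hP
  have h0 : Fac (𝟙_ 𝒜) (T.E X' 0) := hP0.trans (hF 0).2
  obtain ⟨W, hW', hW⟩ := hT.kunneth X' X' hX' hX'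
  obtain ⟨Q, hQ', hQ⟩ := proj_pow hT n
  obtain ⟨Z, hZ', hZ⟩ := hT.kunneth W Q hW' hQ'
  refine ⟨Z, hZ', fun g hg => ?_⟩
  have key : ∀ q q' s : ℕ, q + q' = 2 * s → s ≤ n →
      T.on g (T.E X' (q : ℤ) ⊗ T.E X' (q' : ℤ)) = 𝟙 _ := by
    intro q q' s hs hn
    have h1 := hZ ((q : ℤ) + q') (2 * ((n - s : ℕ) : ℤ))
    have h2 : (q : ℤ) + q' + 2 * ((n - s : ℕ) : ℤ) = 2 * (n : ℤ) := by
      rw [Nat.cast_sub hn]
      have : (q : ℤ) + q' = 2 * (s : ℤ) := by exact_mod_cast hs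
      rw [this]
      ring
    rw [h2] at h1
    obtain ⟨r⟩ := ((hW q q').tensor (hQ (n - s) (Nat.sub_le _ _))).trans h1
    have h3 : T.on g ((T.E X' (q : ℤ) ⊗ T.E X' (q' : ℤ)) ⊗ lpow T.L (n - s)) = 𝟙 _ := by
      rw [on_fac g r, hg, Category.id_comp, ← V.map_comp, r.retract, V.map_id]
    exact on_cancel g (nontrivial_lpow hT.lefschetz _) h3
      (Dom.lpow hT (𝟙_ 𝒜) (n - s) g (T.a.unit g))
  have heven : ∀ s : ℕ, s ≤ n → T.on g (T.E X' ((2 * s : ℕ) : ℤ)) = 𝟙 _ := by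
    intro s hs
    obtain ⟨r⟩ := Fac.unit_right (Fac.refl (T.E X' ((2 * s : ℕ) : ℤ))) h0
    have h1 := key (2 * s) 0 s (by omega) hs
    have h2 : T.on g (T.E X' ((2 * s : ℕ) : ℤ) ⊗ T.E X' 0) = 𝟙 _ := h1
    rw [on_fac g r, h2, Category.id_comp, ← V.map_comp, r.retract, V.map_id]
  have htot : ∀ h : S, (∀ q : ℕ, q < n → T.on h (T.E X' (q : ℤ)) = 𝟙 _) →
      T.on h (T.tot X n) = 𝟙 _ := fun h hh =>
    dom_tot_tot hT hX' (fun i => (hF i).1) le_rfl h (on_big h _ fun q => hh q q.2)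
  by_cases H : ∀ q : ℕ, q < n → T.on g (T.E X' (q : ℤ)) = 𝟙 _
  · exact Or.inl (htot g H)
  · right
    push Not at H
    obtain ⟨q₀, hq₀, hne⟩ := H
    have hodd : q₀ % 2 = 1 := by
      by_contra hcon
      obtain ⟨s, rfl⟩ : ∃ s, q₀ = 2 * s := ⟨q₀ / 2, by omega⟩
      exact hne (heven s (by omega))
    have hneg : T.on g (T.E X' (q₀ : ℤ)) = (-1 : ℂ) • 𝟙 _ :=
      (on_sq g (key q₀ q₀ q₀ (by omega) hq₀.le)).resolve_left hne
    have hnt : Nontrivial (V.obj (T.E X' (q₀ : ℤ))) := by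
      by_contra hcon
      rw [not_nontrivial_iff_subsingleton] at hcon
      apply hne
      apply ModuleCat.hom_ext
      ext x
      exact Subsingleton.elim _ _
    apply htot
    intro q hq
    rw [on_mul, hT.parity X' hX' q]
    rcases Nat.mod_two_eq_zero_or_one q with h2 | h2
    · obtain ⟨s, rfl⟩ : ∃ s, q = 2 * s := ⟨q / 2, by omega⟩
      rw [heven s (by omega), pow_mul, neg_one_sq, one_pow, one_smul, Category.comp_id]
    · have h3 : T.on g (T.E X' (q : ℤ)) = (-1 : ℂ) • 𝟙 _ :=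
        on_cancel_neg g hnt (key q q₀ ((q + q₀) / 2) (by omega) (by omega)) hneg
      have h4 : (-1 : ℂ) ^ q = -1 := Odd.neg_one_pow (Nat.odd_iff.mpr h2)
      rw [h3, h4, Linear.smul_comp, Linear.comp_smul, Category.comp_id, smul_smul]
      norm_num

/-! ### Equidistribution -/

lemma mean_congr {S : Type} {x y : ℕ → S} {f : S → ℂ} {l : ℂ}
    (h : ∃ N : ℕ, ∀ n, N ≤ n → f (x n) = f (y n)) (hx : MeanLimit x f l) : MeanLimit y f l := by
  have h1 : Filter.Tendsto (fun n => f (y n) - f (x n)) Filter.atTop (nhds 0) := by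
    obtain ⟨N, hN⟩ := h
    apply tendsto_const_nhds.congr'
    filter_upwards [Filter.eventually_ge_atTop N] with n hn
    rw [hN n hn, sub_self]
  have h2 := h1.cesaro_smul
  have h3 := hx.add h2
  rw [add_zero] at h3
  refine h3.congr fun n => ?_
  have e : ((n⁻¹ : ℝ) • ∑ i ∈ Finset.range n, (f (y i) - f (x i)) : ℂ) =
      (n⁻¹ : ℂ) * ∑ i ∈ Finset.range n, (f (y i) - f (x i)) := by
    rw [Complex.real_smul]
    push_cast
    rfl
  rw [e, ← mul_add, ← Finset.sum_add_distrib]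
  congr 1
  exact Finset.sum_congr rfl fun i _ => by ring

section st

variable [TopologicalSpace S] [MeasurableSpace S] {μ : MeasureTheory.Measure S}

omit [V.Additive] in
lemma on_eps (hT : IsData T) (h : S) (A : 𝒜) :
    T.on (T.ε * (T.ε * h)) A = T.on h A := by
  rw [← mul_assoc, hT.square, one_mul]

/-- the values at the Frobenius classes are the same for two motives -/
lemma frob_eq (hT : IsData T) {A B : 𝒜} (f : S → ℂ) (hc : ∀ g h : S, f (h⁻¹ * g * h) = f g)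
    (hA : ∀ g h : S, T.on g A = T.on h A → f g = f h)
    (hB : ∀ g h : S, T.on g B = T.on h B → f g = f h) :
    ∃ N : ℕ, ∀ n, N ≤ n → f (T.frob A n) = f (T.frob B n) := by
  obtain ⟨N₁, h1⟩ := hT.frob_compat (A ⊞ B) A fun g hg => by
    exact Dom.fac ⟨⟨biprod.inl, biprod.fst, by simp⟩⟩ (Dom.refl (A ⊞ B)) g hg
  obtain ⟨N₂, h2⟩ := hT.frob_compat (A ⊞ B) B fun g hg => by
    exact Dom.fac ⟨⟨biprod.inr, biprod.snd, by simp⟩⟩ (Dom.refl (A ⊞ B)) g hg
  refine ⟨max N₁ N₂, fun n hn => ?_⟩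
  obtain ⟨g₁, h3⟩ := h1 n (le_of_max_le_left hn)
  obtain ⟨g₂, h4⟩ := h2 n (le_of_max_le_right hn)
  rw [hA _ _ h3, hB _ _ h4, hc, hc]

lemma pm_of_st (hT : IsData T) {A B : 𝒜}
    (h : ∀ g : S, T.on g A = 𝟙 _ → (T.on g B = 𝟙 _ ∨ T.on (T.ε * g) B = 𝟙 _))
    (hA : SatoTate μ T A) : SatoTatePM μ T B := by
  intro f hf hc hB
  have hfA : ∀ g h : S, T.on g A = T.on h A → f g = f h := by
    intro g g' hg
    apply hB
    rcases h _ (on_of_eq hg) with h1 | h1
    · exact Or.inl (on_eq_of h1)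
    · right
      apply on_eq_of
      have e : (T.ε * g')⁻¹ * g = T.ε * (g'⁻¹ * g) := by
        have e1 : T.ε⁻¹ = T.ε := inv_eq_of_mul_eq_one_left hT.square
        rw [mul_inv_rev, e1, mul_assoc, hT.central g, ← mul_assoc, ← hT.central]
      rw [e]
      exact h1
  exact mean_congr (frob_eq hT f hc hfA fun g h hg => hB g h (Or.inl hg)) (hA f hf hc hfA)

lemma pm_of_pm (hT : IsData T) {A B : 𝒜} (h : Dom T A B)
    (hA : SatoTatePM μ T A) : SatoTatePM μ T B := by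
  intro f hf hc hB
  have hfA : ∀ g h : S, (T.on g A = T.on h A ∨ T.on g A = T.on (T.ε * h) A) → f g = f h := by
    intro g g' hg
    apply hB
    rcases hg with hg | hg
    · exact Or.inl (on_eq_of (h _ (on_of_eq hg)))
    · exact Or.inr (on_eq_of (h _ (on_of_eq hg)))
  exact mean_congr (frob_eq hT f hc (fun g h hg => hfA g h (Or.inl hg))
    fun g h hg => hB g h (Or.inl hg)) (hA f hf hc hfA)

/-- for even degrees the two properties are the same -/
lemma st_of_pm (hT : IsData T) (X : Sch ℚ) (hX : SmProj X) (q : ℕ)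
    (h : SatoTatePM μ T (T.E X ((2 * q : ℕ) : ℤ))) : SatoTate μ T (T.E X ((2 * q : ℕ) : ℤ)) := by
  intro f hf hc hA
  refine h f hf hc ?_
  rintro g g' (hg | hg)
  · exact hA g g' hg
  · apply hA
    rw [hg, on_mul, hT.parity X hX, pow_mul, neg_one_sq, one_pow, one_smul, Category.comp_id]

end st

end Pool.Agent.Y116.ST
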